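import Mathlib
import Pool.Agent.Helper83.SE1
import Pool.Agent.Helper83.SE2
import Pool.Agent.Helper83.SE4
import Pool.Agent.Helper83.SE5

/-!
# `MP_c2a5b1_lc`: `(σG)^(2n-1) ≠ S` for all `k, n ≥ 3` and for `k = 2`, `n ≥ 5`
-/

namespace Pool.Agent.Results.MP_c2a5b1_lc.ConjectureFails

open Equiv

/-- Words of length `n` over the `k`-letter alphabet `Fin k`; the letter `x_{i+1}` of the problem
is `w i`, `i = 0, ..., n-1`. -/
abbrev Word (k n : ℕ) : Type := Fin n → Fin k

/-- The shuffle `σ(x₁x₂⋯xₙ) = x₂⋯xₙx₁`: the `i`-th letter of `σ w` is the letter of `w` at the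
cyclically next position. -/
def shuffle (k n : ℕ) : Perm (Word k n) where
  toFun w := fun i => w (finRotate n i)
  invFun w := fun i => w ((finRotate n).symm i)
  left_inv w := funext fun i => congrArg w (Equiv.apply_symm_apply (finRotate n) i)
  right_inv w := funext fun i => congrArg w (Equiv.symm_apply_apply (finRotate n) i)

/-- The exchange group `G` (as a set): all permutations `π` of the words such that `π w` has the
same first `n-1` letters as `w`, for every word `w`. -/
def exchange (k n : ℕ) : Set (Perm (Word k n)) :=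
  {π | ∀ (w : Word k n) (i : Fin n), (i : ℕ) + 1 < n → π w i = w i}

/-- `(σG)^m`: the set of all products `σ g₁ σ g₂ ⋯ σ gₘ` with all `gᵢ ∈ G`. -/
def shuffleExchange (k n m : ℕ) : Set (Perm (Word k n)) :=
  {π | ∃ g : Fin m → Perm (Word k n), (∀ i, g i ∈ exchange k n) ∧
    π = (List.ofFn fun i => shuffle k n * g i).prod}

/-- Monotonicity: if `(σG)^m` is everything then so is `(σG)^(m+1)`. -/
theorem mono {k n m : ℕ} (h : shuffleExchange k n m = Set.univ) :
    shuffleExchange k n (m + 1) = Set.univ := by
  rw [Set.eq_univ_iff_forall] at h ⊢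
  intro π
  obtain ⟨g, hg, hπ⟩ := h ((shuffle k n)⁻¹ * π)
  refine ⟨Fin.cons 1 g, ?_, ?_⟩
  · intro i
    refine Fin.cases ?_ (fun j => ?_) i
    · exact fun w i _ => rfl
    · simpa using hg j
  · rw [List.ofFn_succ]
    simp only [Fin.cons_zero, mul_one, Fin.cons_succ, List.prod_cons]
    rw [← hπ]
    group

theorem shuffle_apply {k n : ℕ} (w : Word k n) (i : ℕ) (hi : i + 1 < n) :
    shuffle k n w ⟨i, by omega⟩ = w ⟨i + 1, hi⟩ := by
  obtain ⟨n, rfl⟩ : ∃ n', n = n' + 1 := ⟨n - 1, by omega⟩
  change w (finRotate (n + 1) ⟨i, by omega⟩) = _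
  congr 1
  rw [finRotate_of_lt (by omega)]

theorem shuffle_apply_last {k n : ℕ} (hn : 0 < n) (w : Word k n) :
    shuffle k n w ⟨n - 1, by omega⟩ = w ⟨0, hn⟩ := by
  obtain ⟨n, rfl⟩ : ∃ n', n = n' + 1 := ⟨n - 1, by omega⟩
  change w (finRotate (n + 1) ⟨n + 1 - 1, by omega⟩) = _
  congr 1
  exact finRotate_last

/-- The letter sequence of a product `σ g₁ ⋯ σ gₘ`. -/
theorem exists_letters {k n : ℕ} (hn : 2 ≤ n) (m : ℕ) (π : Perm (Word k n))
    (h : π ∈ shuffleExchange k n m) :
    ∃ L : Word k n → ℕ → Fin k,
      (∀ w (i : ℕ) (hi : i + 1 < n), L w i = w ⟨i, by omega⟩) ∧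
      (∀ j, j < m → Function.Bijective fun w => (fun i : Fin n => L w (j + i))) ∧
      (∀ w (i : ℕ) (hi : i + 1 < n), π w ⟨i, by omega⟩ = L w (m + i)) ∧
      (∀ w, 1 ≤ m → π w ⟨n - 1, by omega⟩ = L w (m - 1)) := by
  induction m generalizing π with
  | zero =>
    obtain ⟨g, -, hπ⟩ := h
    have hπ1 : π = 1 := by simpa using hπ
    subst hπ1
    have hk : ∀ w : Word k n, 0 < k := fun w => (w ⟨0, by omega⟩).pos
    refine ⟨fun w i => if hi : i < n then w ⟨i, hi⟩ else ⟨0, hk w⟩, ?_, ?_, ?_, ?_⟩
    · intro w i hi
      simp only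
      rw [dif_pos (by omega)]
    · intro j hj
      omega
    · intro w i hi
      simp only [zero_add, Perm.coe_one, id_eq]
      rw [dif_pos (by omega)]
    · intro w hm
      omega
  | succ m ih =>
    obtain ⟨g, hg, hπ⟩ := h
    rw [List.ofFn_succ, List.prod_cons] at hπ
    set π' : Perm (Word k n) := (List.ofFn fun i : Fin m => shuffle k n * g i.succ).prod with hπ'
    obtain ⟨L, h1, h2, h3, h4⟩ := ih π' ⟨fun i => g i.succ, fun i => hg _, hπ'⟩
    set q : Perm (Word k n) := g 0 * π' with hq
    have hπq : π = shuffle k n * q := by rw [hπ, hq, mul_assoc]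
    have hqlt : ∀ w (i : ℕ) (hi : i + 1 < n), q w ⟨i, by omega⟩ = L w (m + i) := by
      intro w i hi
      rw [hq, Perm.mul_apply, hg 0 _ ⟨i, by omega⟩ hi, h3 w i hi]
    refine ⟨fun w i => if i < m + (n - 1) then L w i else q w ⟨n - 1, by omega⟩, ?_, ?_, ?_, ?_⟩
    · intro w i hi
      simp only
      rw [if_pos (by omega), h1 w i hi]
    · intro j hj
      rcases Nat.lt_succ_iff_lt_or_eq.1 hj with hj | rfl
      · have : (fun w => (fun i : Fin n => if j + (i : ℕ) < m + (n - 1) then L w (j + i)
            else q w ⟨n - 1, by omega⟩)) = fun w => (fun i : Fin n => L w (j + i)) := by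
          funext w i
          have := i.2
          rw [if_pos (by omega)]
        rw [this]
        exact h2 j hj
      · have : (fun w => (fun i : Fin n => if j + (i : ℕ) < j + (n - 1) then L w (j + i)
            else q w ⟨n - 1, by omega⟩)) = fun w => q w := by
          funext w i
          obtain ⟨i, hi⟩ := i
          by_cases hin : i < n - 1
          · simp only
            rw [if_pos (by omega), hqlt w i (by omega)]
          · simp only
            have : i = n - 1 := by omega
            subst this
            rw [if_neg (by omega)]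
        rw [this]
        exact q.bijective
    · intro w i hi
      simp only
      rw [hπq, Perm.mul_apply, shuffle_apply _ i hi]
      by_cases hin : i + 1 + 1 < n
      · rw [if_pos (by omega), hqlt w (i + 1) hin]
        congr 1
        omega
      · have : i + 1 = n - 1 := by omega
        rw [if_neg (by omega)]
        simp only [this]
    · intro w _
      simp only [Nat.add_sub_cancel]
      rw [if_pos (by omega), hπq, Perm.mul_apply, shuffle_apply_last (by omega),
        hqlt w 0 (by omega), add_zero]

open Pool.Agent.Helper83.SE in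
theorem exists_not_mem (k n : ℕ) (hk : 3 ≤ k) (hn : 3 ≤ n) :
    ∃ π : Perm (Word k n), π ∉ shuffleExchange k n (2 * n - 1) := by
  -- three letters and four positions
  let l0 : Fin k := ⟨0, by omega⟩
  let l1 : Fin k := ⟨1, by omega⟩
  let l2 : Fin k := ⟨2, by omega⟩
  have h01 : l0 ≠ l1 := by simp [l0, l1]
  have h02 : l0 ≠ l2 := by simp [l0, l2]
  have h12 : l1 ≠ l2 := by simp [l1, l2]
  let pa : Fin n := ⟨n - 2, by omega⟩
  let px : Fin n := ⟨n - 3, by omega⟩
  let pb : Fin n := ⟨n - 1, by omega⟩
  let pr : Fin n := ⟨0, by omega⟩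
  have hxa : px ≠ pa := by simp only [px, pa, ne_eq, Fin.mk.injEq]; omega
  have hrb : pr ≠ pb := by simp only [pr, pb, ne_eq, Fin.mk.injEq]; omega
  let β : Perm (Fin k × Fin k) := beta l0 l1 l2 h01 h02 h12
  have hβ : ∀ q, β q = betaFun l0 l1 l2 q := fun q => rfl
  obtain ⟨π0, hπ0⟩ := exists_block px pa pb pr hxa hrb β
  let w0 : Word k n := fun _ => l0
  let w2 : Word k n := fun i => if i = pa then l2 else l0
  have hw2x : w2 px = l0 := by simp [w2, hxa]
  have hw2a : w2 pa = l2 := by simp [w2]
  have hw0a : w0 pa = l0 := rfl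
  have hne : w2 ≠ w0 := by
    intro h
    have := congrFun h pa
    rw [hw2a, hw0a] at this
    exact h02 this.symm
  refine ⟨π0 * swap w2 w0, fun hmem => ?_⟩
  set π : Perm (Word k n) := π0 * swap w2 w0 with hπ
  have hπw2 : (π w2 pb, π w2 pr) = (l0, l0) := by
    rw [hπ, Perm.mul_apply, swap_apply_left, hπ0, hβ]
    simp [betaFun, w0]
  have hπw0 : (π w0 pb, π w0 pr) = (l2, l1) := by
    rw [hπ, Perm.mul_apply, swap_apply_right, hπ0, hβ, hw2x, hw2a]
    simp [betaFun, h02.symm, h12.symm]
  have hπw : ∀ w, w ≠ w2 → w ≠ w0 →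
      (π w pb, π w pr) = betaFun l0 l1 l2 (w px, w pa) := by
    intro w h h'
    rw [hπ, Perm.mul_apply, swap_apply_of_ne_of_ne h h', hπ0, hβ]
  obtain ⟨L, hL1, hL2, hL3, hL4⟩ := exists_letters (by omega) (2 * n - 1) π hmem
  have hLa : ∀ w, L w (n - 2) = w pa := fun w => hL1 w (n - 2) (by omega)
  have hLx : ∀ w, L w (n - 3) = w px := fun w => hL1 w (n - 3) (by omega)
  have hLb : ∀ w, L w (2 * n - 2) = π w pb := fun w => by
    rw [hL4 w (by omega)]
    congr 1
  have hLr : ∀ w, L w (2 * n - 1) = π w pr := fun w => (hL3 w 0 (by omega)).symm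
  let y : Word k n → (Fin (n - 1) → Fin k) := fun w i => L w (n - 1 + i)
  let pc : (Fin (n - 1) → Fin k) → (Fin (n - 2) → Fin k) := fun η i => η ⟨i, by omega⟩
  let pd : (Fin (n - 1) → Fin k) → (Fin (n - 2) → Fin k) := fun η i => η ⟨i + 1, by omega⟩
  refine core (fun w => w px) (fun w => w pa) (fun w => π w pb) (fun w => π w pr) y pc pd
    l0 l1 l2 h01 h02 h12 ?_ ?_ ?_ ?_ ?_ ?_ ?_ w2 w0 hw2a (congrArg Prod.fst hπw2) hw0a
    (congrArg Prod.fst hπw0) ?_ ?_ ?_ ?_
  · -- `pc` and `pd` are jointly injective
    intro η η' h h'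
    funext i
    obtain ⟨i, hi⟩ := i
    by_cases h0 : i < n - 2
    · exact congrFun h ⟨i, h0⟩
    · have := congrFun h' ⟨i - 1, by omega⟩
      simp only [pd] at this
      have e : i - 1 + 1 = i := by omega
      simpa only [e] using this
  · -- window `n - 2`, surjectivity
    intro α η
    obtain ⟨w, hw⟩ := (hL2 (n - 2) (by omega)).2
      (fun i => if h : (i : ℕ) = 0 then α else η ⟨i - 1, by omega⟩)
    refine ⟨w, ?_, ?_⟩
    · have := congrFun hw ⟨0, by omega⟩
      simpa [hLa] using this
    · funext i
      have := congrFun hw ⟨i + 1, by omega⟩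
      simp only [Nat.add_eq_zero_iff, one_ne_zero, and_false, dite_false,
        Nat.add_sub_cancel] at this
      change L w (n - 1 + i) = _
      rw [← this]
      congr 1
      omega
  · -- window `n - 1`, injectivity
    intro w w' hb hy
    apply (hL2 (n - 1) (by omega)).1
    funext i
    obtain ⟨i, hi⟩ := i
    by_cases h : i < n - 1
    · exact congrFun hy ⟨i, h⟩
    · have e : n - 1 + i = 2 * n - 2 := by omega
      simp only [e, hLb]
      exact hb
  · -- window `n - 3`, surjectivity
    intro p α κ
    obtain ⟨w, hw⟩ := (hL2 (n - 3) (by omega)).2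
      (fun i => if h : (i : ℕ) = 0 then p else if h' : (i : ℕ) = 1 then α
        else κ ⟨i - 2, by omega⟩)
    refine ⟨w, ?_, ?_, ?_⟩
    · have := congrFun hw ⟨0, by omega⟩
      simpa [hLx] using this
    · have := congrFun hw ⟨1, by omega⟩
      have e : n - 3 + 1 = n - 2 := by omega
      simpa [hLa, e] using this
    · funext i
      have := congrFun hw ⟨i + 2, by omega⟩
      have e1 : ¬ ((i : ℕ) + 2 = 0) := by omega
      have e2 : ¬ ((i : ℕ) + 2 = 1) := by omega
      simp only [e1, e2, dite_false, Nat.add_sub_cancel] at this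
      change L w (n - 1 + i) = _
      rw [← this]
      congr 1
      omega
  · -- window `n - 3`, injectivity
    intro w w' hx ha hc
    apply (hL2 (n - 3) (by omega)).1
    funext i
    obtain ⟨i, hi⟩ := i
    by_cases h0 : i = 0
    · subst h0
      simp only [add_zero, hLx]
      exact hx
    · by_cases h1 : i = 1
      · have e : n - 3 + i = n - 2 := by omega
        simp only [e, hLa]
        exact ha
      · have := congrFun hc ⟨i - 2, by omega⟩
        change L w (n - 1 + (i - 2)) = L w' (n - 1 + (i - 2)) at this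
        have e : n - 1 + (i - 2) = n - 3 + i := by omega
        rw [e] at this
        exact this
  · -- window `n`, surjectivity
    intro b' r' δ
    obtain ⟨w, hw⟩ := (hL2 n (by omega)).2
      (fun i => if h : (i : ℕ) < n - 2 then δ ⟨i, h⟩ else if (i : ℕ) = n - 2 then b' else r')
    refine ⟨w, ?_, ?_, ?_⟩
    · have := congrFun hw ⟨n - 2, by omega⟩
      have e : n + (n - 2) = 2 * n - 2 := by omega
      simpa [e, hLb] using this
    · have := congrFun hw ⟨n - 1, by omega⟩
      have e : n + (n - 1) = 2 * n - 1 := by omega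
      have e1 : ¬ (n - 1 < n - 2) := by omega
      have e2 : ¬ (n - 1 = n - 2) := by omega
      simpa [e, hLr, e1, e2] using this
    · funext i
      have := congrFun hw ⟨i, by omega⟩
      simp only [i.2, dite_true] at this
      change L w (n - 1 + (i + 1)) = _
      rw [← this]
      congr 1
      omega
  · -- window `n`, injectivity
    intro w w' hb hr hd
    apply (hL2 n (by omega)).1
    funext i
    obtain ⟨i, hi⟩ := i
    by_cases h0 : i < n - 2
    · have := congrFun hd ⟨i, h0⟩
      change L w (n - 1 + (i + 1)) = L w' (n - 1 + (i + 1)) at this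
      have e : n - 1 + (i + 1) = n + i := by omega
      rw [e] at this
      exact this
    · by_cases h1 : i = n - 2
      · have e : n + i = 2 * n - 2 := by omega
        simp only [e, hLb]
        exact hb
      · have e : n + i = 2 * n - 1 := by omega
        simp only [e, hLr]
        exact hr
  · -- group `a = l1`
    intro w ha
    have n2 : w ≠ w2 := by rintro rfl; exact h12 (ha.symm.trans hw2a)
    have n0 : w ≠ w0 := by rintro rfl; exact h01 (hw0a.symm.trans ha)
    have := hπw w n2 n0
    simp only [betaFun, ha, h01.symm, if_false, if_true] at this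
    by_cases hx : w px = l0
    · right
      simp only [hx, if_true, Prod.mk.injEq] at this
      exact ⟨hx, this.1, this.2⟩
    · left
      simp only [hx, if_false, Prod.mk.injEq] at this
      exact this.1
  · intro w hx ha
    have n2 : w ≠ w2 := by rintro rfl; exact h12 (ha.symm.trans hw2a)
    have n0 : w ≠ w0 := by rintro rfl; exact h01 (hw0a.symm.trans ha)
    have := hπw w n2 n0
    simp only [betaFun, ha, hx, h01.symm, if_false, if_true, Prod.mk.injEq] at this
    exact this.1
  · intro w hb hr
    by_cases n2 : w = w2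
    · rw [n2] at hb
      exact absurd ((congrArg Prod.fst hπw2).symm.trans hb) h02
    by_cases n0 : w = w0
    · rw [n0] at hr
      exact absurd ((congrArg Prod.snd hπw0).symm.trans hr) h01.symm
    have := hπw w n2 n0
    have h3 : betaFun l0 l1 l2 (w px, w pa) = (l2, l0) := by
      rw [← this]
      exact Prod.ext hb hr
    exact betaFun_eq l0 l1 l2 h01 h02 h12 _ _ h3
  · -- group `a = l2`
    intro w ha
    by_cases n2 : w = w2
    · exact Or.inl n2
    right
    have n0 : w ≠ w0 := by rintro rfl; exact h02 (hw0a.symm.trans ha)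
    have := hπw w n2 n0
    simp only [betaFun, ha, h02.symm, h12.symm, if_false, if_true] at this
    by_cases hx : w px = l0
    · left
      simp only [hx, if_true, Prod.mk.injEq] at this
      exact this.1
    · by_cases hx1 : w px = l1
      · right
        simp only [hx1, h01.symm, if_false, if_true, Prod.mk.injEq] at this
        exact ⟨hx1, this.1, this.2⟩
      · left
        simp only [hx, hx1, if_false, Prod.mk.injEq] at this
        exact this.1

open Pool.Agent.Helper83.SE in
theorem exists_not_mem_two (n : ℕ) (hn : 5 ≤ n) :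
    ∃ π : Perm (Word 2 n), π ∉ shuffleExchange 2 n (2 * n - 1) := by
  let p3 : Fin n := ⟨n - 4, by omega⟩
  let p2 : Fin n := ⟨n - 3, by omega⟩
  let p1 : Fin n := ⟨n - 2, by omega⟩
  let q1 : Fin n := ⟨n - 1, by omega⟩
  let q2 : Fin n := ⟨0, by omega⟩
  let q3 : Fin n := ⟨1, by omega⟩
  have h32 : p3 ≠ p2 := by simp only [p3, p2, ne_eq, Fin.mk.injEq]; omega
  have h31 : p3 ≠ p1 := by simp only [p3, p1, ne_eq, Fin.mk.injEq]; omega
  have h21 : p2 ≠ p1 := by simp only [p2, p1, ne_eq, Fin.mk.injEq]; omega
  have g32 : q3 ≠ q2 := by simp only [q3, q2, ne_eq, Fin.mk.injEq]; omega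
  have g31 : q3 ≠ q1 := by simp only [q3, q1, ne_eq, Fin.mk.injEq]; omega
  have g21 : q2 ≠ q1 := by simp only [q2, q1, ne_eq, Fin.mk.injEq]; omega
  obtain ⟨π0, hπ0⟩ := exists_block_tuple (L := Fin 2) ![p3, p2, p1] ![q1, q2, q3]
    (by
      intro i j h
      fin_cases i <;> fin_cases j <;>
        simp_all [h32.symm, h31.symm, h21.symm])
    (by
      intro i j h
      fin_cases i <;> fin_cases j <;>
        simp_all [g32.symm, g31.symm, g21.symm]) tabPerm
  have hπ0' : ∀ w, tab (w p3) (w p2) (w p1) = (π0 w q1, π0 w q2, π0 w q3) := by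
    intro w
    have e1 := hπ0 w 0
    have e2 := hπ0 w 1
    have e3 := hπ0 w 2
    change π0 w q1 = (tab (w p3) (w p2) (w p1)).1 at e1
    change π0 w q2 = (tab (w p3) (w p2) (w p1)).2.1 at e2
    change π0 w q3 = (tab (w p3) (w p2) (w p1)).2.2 at e3
    rw [e1, e2, e3]
  let a : Word 2 n := fun _ => 0
  let b : Word 2 n := fun i => if i = p2 then 1 else 0
  have hb3 : b p3 = 0 := by simp [b, h32]
  have hb2 : b p2 = 1 := by simp [b]
  have hb1 : b p1 = 0 := by simp [b, h21.symm]
  refine ⟨π0 * swap a b, fun hmem => ?_⟩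
  set π : Perm (Word 2 n) := π0 * swap a b with hπ
  have hπa : π a = π0 b := by rw [hπ, Perm.mul_apply, swap_apply_left]
  have hπb : π b = π0 a := by rw [hπ, Perm.mul_apply, swap_apply_right]
  have hπw : ∀ w, w ≠ a → w ≠ b → π w = π0 w := by
    intro w h h'
    rw [hπ, Perm.mul_apply, swap_apply_of_ne_of_ne h h']
  have tb := hπ0' b
  rw [hb3, hb2, hb1] at tb
  have ta := hπ0' a
  have t1 : tab 0 1 0 = (0, 1, 0) := rfl
  have t2 : tab (a p3) (a p2) (a p1) = (0, 0, 0) := rfl
  rw [t1] at tb
  rw [t2] at ta
  simp only [Prod.mk.injEq] at ta tb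
  obtain ⟨L, hL1, hL2, hL3, hL4⟩ := exists_letters (by omega) (2 * n - 1) π hmem
  have hLu3 : ∀ w, L w (n - 4) = w p3 := fun w => hL1 w (n - 4) (by omega)
  have hLu2 : ∀ w, L w (n - 3) = w p2 := fun w => hL1 w (n - 3) (by omega)
  have hLu1 : ∀ w, L w (n - 2) = w p1 := fun w => hL1 w (n - 2) (by omega)
  have hLv1 : ∀ w, L w (2 * n - 2) = π w q1 := fun w => by
    rw [hL4 w (by omega)]
    congr 1
  have hLv2 : ∀ w, L w (2 * n - 1) = π w q2 := fun w => (hL3 w 0 (by omega)).symm
  have hLv3 : ∀ w, L w (2 * n) = π w q3 := fun w => by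
    rw [hL3 w 1 (by omega)]
    congr 1
    omega
  refine core2 hn (fun w => w p3) (fun w => w p2) (fun w => w p1) (fun w => π w q1)
    (fun w => π w q2) (fun w => π w q3) (fun w i => L w (n - 1 + i)) a b rfl rfl rfl
    (by simp only [hπa]; exact tb.1.symm) (by simp only [hπa]; exact tb.2.1.symm)
    (by simp only [hπa]; exact tb.2.2.symm) hb3 hb2 hb1
    (by simp only [hπb]; exact ta.1.symm) (by simp only [hπb]; exact ta.2.1.symm)
    (by simp only [hπb]; exact ta.2.2.symm) ?_ ?_ ?_ ?_ ?_ ?_ ?_ ?_ ?_ ?_
  · intro w h h'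
    simp only [hπw w h h']
    exact hπ0' w
  · -- window `n - 4`
    intro w w' h3 h2 h1 hy
    apply (hL2 (n - 4) (by omega)).1
    funext i
    obtain ⟨i, hi⟩ := i
    simp only
    by_cases c0 : i = 0
    · subst c0
      simp only [add_zero, hLu3]
      exact h3
    by_cases c1 : i = 1
    · have e : n - 4 + i = n - 3 := by omega
      simp only [e, hLu2]
      exact h2
    by_cases c2 : i = 2
    · have e : n - 4 + i = n - 2 := by omega
      simp only [e, hLu1]
      exact h1
    have := hy (i - 3) (by omega)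
    simp only at this
    have e : n - 1 + (i - 3) = n - 4 + i := by omega
    rw [e] at this
    exact this
  · -- window `n - 3`, injectivity
    intro w w' h2 h1 hy
    apply (hL2 (n - 3) (by omega)).1
    funext i
    obtain ⟨i, hi⟩ := i
    simp only
    by_cases c0 : i = 0
    · subst c0
      simp only [add_zero, hLu2]
      exact h2
    by_cases c1 : i = 1
    · have e : n - 3 + i = n - 2 := by omega
      simp only [e, hLu1]
      exact h1
    have := hy (i - 2) (by omega)
    simp only at this
    have e : n - 1 + (i - 2) = n - 3 + i := by omega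
    rw [e] at this
    exact this
  · -- window `n - 3`, surjectivity
    intro p q τ
    obtain ⟨w, hw⟩ := (hL2 (n - 3) (by omega)).2
      (fun i => if h : (i : ℕ) = 0 then p else if h' : (i : ℕ) = 1 then q
        else τ ⟨i - 2, by omega⟩)
    refine ⟨w, ?_, ?_, ?_⟩
    · have := congrFun hw ⟨0, by omega⟩
      simpa [hLu2] using this
    · have := congrFun hw ⟨1, by omega⟩
      have e : n - 3 + 1 = n - 2 := by omega
      simpa [hLu1, e] using this
    · intro i hi
      have := congrFun hw ⟨i + 2, by omega⟩
      have e1 : ¬ (i + 2 = 0) := by omega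
      have e2 : ¬ (i + 2 = 1) := by omega
      simp only [e1, e2, dite_false, Nat.add_sub_cancel] at this
      change L w (n - 1 + i) = _
      rw [← this]
      congr 1
      omega
  · -- window `n - 2`, surjectivity
    intro q η
    obtain ⟨w, hw⟩ := (hL2 (n - 2) (by omega)).2
      (fun i => if h : (i : ℕ) = 0 then q else η ⟨i - 1, by omega⟩)
    refine ⟨w, ?_, ?_⟩
    · have := congrFun hw ⟨0, by omega⟩
      simpa [hLu1] using this
    · funext i
      have := congrFun hw ⟨i + 1, by omega⟩
      simp only [Nat.add_eq_zero_iff, one_ne_zero, and_false, dite_false,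
        Nat.add_sub_cancel] at this
      change L w (n - 1 + i) = _
      rw [← this]
      congr 1
      omega
  · -- window `n - 1`, surjectivity
    intro q η
    obtain ⟨w, hw⟩ := (hL2 (n - 1) (by omega)).2
      (fun i => if h : (i : ℕ) < n - 1 then η ⟨i, h⟩ else q)
    refine ⟨w, ?_, ?_⟩
    · have := congrFun hw ⟨n - 1, by omega⟩
      have e : n - 1 + (n - 1) = 2 * n - 2 := by omega
      simpa [hLv1, e] using this
    · funext i
      have := congrFun hw ⟨i, by omega⟩
      simpa [i.2] using this
  · -- window `n - 1`, injectivity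
    intro w w' hb hy
    apply (hL2 (n - 1) (by omega)).1
    funext i
    obtain ⟨i, hi⟩ := i
    by_cases h : i < n - 1
    · exact congrFun hy ⟨i, h⟩
    · have e : n - 1 + i = 2 * n - 2 := by omega
      simp only [e, hLv1]
      exact hb
  · -- window `n`, injectivity
    intro w w' hb hr hd
    apply (hL2 n (by omega)).1
    funext i
    obtain ⟨i, hi⟩ := i
    by_cases h0 : i < n - 2
    · have := hd i h0
      simp only at this ⊢
      have e : n - 1 + (i + 1) = n + i := by omega
      rw [e] at this
      exact this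
    · by_cases h1 : i = n - 2
      · have e : n + i = 2 * n - 2 := by omega
        simp only [e, hLv1]
        exact hb
      · have e : n + i = 2 * n - 1 := by omega
        simp only [e, hLv2]
        exact hr
  · -- window `n`, surjectivity
    intro b' r' δ
    obtain ⟨w, hw⟩ := (hL2 n (by omega)).2
      (fun i => if h : (i : ℕ) < n - 2 then δ ⟨i, h⟩ else if (i : ℕ) = n - 2 then b' else r')
    refine ⟨w, ?_, ?_, ?_⟩
    · have := congrFun hw ⟨n - 2, by omega⟩
      have e : n + (n - 2) = 2 * n - 2 := by omega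
      simpa [e, hLv1] using this
    · have := congrFun hw ⟨n - 1, by omega⟩
      have e : n + (n - 1) = 2 * n - 1 := by omega
      have e1 : ¬ (n - 1 < n - 2) := by omega
      have e2 : ¬ (n - 1 = n - 2) := by omega
      simpa [e, hLv2, e1, e2] using this
    · intro i hi
      have := congrFun hw ⟨i, by omega⟩
      simp only [hi, dite_true] at this
      change L w (n - 1 + (i + 1)) = _
      rw [← this]
      congr 1
      omega
  · -- window `n + 1`
    intro w w' h1 h2 h3 hy
    apply (hL2 (n + 1) (by omega)).1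
    funext i
    obtain ⟨i, hi⟩ := i
    by_cases c0 : i < n - 3
    · have := hy i c0
      simp only at this ⊢
      have e : n - 1 + (i + 2) = n + 1 + i := by omega
      rw [e] at this
      exact this
    by_cases c1 : i = n - 3
    · have e : n + 1 + i = 2 * n - 2 := by omega
      simp only [e, hLv1]
      exact h1
    by_cases c2 : i = n - 2
    · have e : n + 1 + i = 2 * n - 1 := by omega
      simp only [e, hLv2]
      exact h2
    have e : n + 1 + i = 2 * n := by omega
    simp only [e, hLv3]
    exact h3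

/-- For all `m ≤ 2n - 1` we have `(σG)^m ≠ S` whenever `k, n ≥ 3`, and also whenever `k = 2` and
`n ≥ 5`: the `(2n-1)`-stage `k`-ary shuffle-exchange network is not rearrangeable. So `d(k,n) ≥ 2n`,
and the conjecture `d*(k,n) = 2n - 1` fails in all these cases, that is, in all cases other than
`n = 2`, `(k,n) = (2,3)` and `(k,n) = (2,4)`, where it was known to hold. -/
theorem result (k n : ℕ) (h : (3 ≤ k ∧ 3 ≤ n) ∨ (k = 2 ∧ 5 ≤ n)) (m : ℕ) (hm : m ≤ 2 * n - 1) :
    shuffleExchange k n m ≠ Set.univ := by
  intro hu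
  have key : ∀ j, shuffleExchange k n (m + j) = Set.univ := by
    intro j
    induction j with
    | zero => exact hu
    | succ j ih => exact mono ih
  obtain ⟨π, hπ⟩ : ∃ π : Perm (Word k n), π ∉ shuffleExchange k n (2 * n - 1) := by
    rcases h with ⟨hk, hn⟩ | ⟨rfl, hn⟩
    · exact exists_not_mem k n hk hn
    · exact exists_not_mem_two n hn
  have := key (2 * n - 1 - m)
  rw [Nat.add_sub_cancel' hm] at this
  exact hπ (this ▸ Set.mem_univ π)

end Pool.Agent.Results.MP_c2a5b1_lc.ConjectureFails
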